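import Pool.Statements.S03245
import Pool.Agent.W2helper26.PP.Final

set_option autoImplicit false
open Pool Pool.MP_db04f5_al

namespace Pool.Agent.S03245

/-- For every n, there is an algorithm deciding, given a word in x_1..x_n and inverses, whether some automorphism of the free group F_n sends it into the semigroup generated by x_1..x_n. -/
theorem result :
    ∀ n : ℕ, ComputablePred (fun w : List (Fin n × Bool) =>
      ∃ α : FreeGroup (Fin n) ≃* FreeGroup (Fin n),
        α (FreeGroup.mk w) ∈
          Subsemigroup.closure (Set.range (FreeGroup.of : Fin n → FreeGroup (Fin n)))) := by
  exact Pool.Agent.W2helper26.PP.final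

end Pool.Agent.S03245
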