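import Pool.Statements.S03669
-- import your own Pool.Agent.* helpers here
import Pool.Agent.W2helper59.LN.Fin
import Pool.Agent.W2helper26.LN.AE
import Pool.Agent.W2helper59.LN.AW
import Pool.Agent.W2helper14.LN.P1
import Pool.Agent.W2helper53.LN.P2
import Pool.Agent.W2helper26.LN.P3
import Pool.Agent.W2helper26.LN.P10c
import Pool.Agent.W2helper26.LN.P11
import Pool.Agent.W2helper26.LN.S4
import Pool.Agent.W2helper71.LN.P5
import Pool.Agent.W2helper56.LN.P6
import Pool.Agent.W2helper53.LN.P7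
import Pool.Agent.W2helper4.LN.P8
import Pool.Agent.W2helper4.LN.P9
import Pool.Agent.W2helper68.LN.S1
import Pool.Agent.W2helper68.LN.S4b
import Pool.Agent.W2helper71.LN.S5
import Pool.Agent.W2helper71.LN.S6

set_option autoImplicit false
open Pool Pool.MP_0170ef_an

namespace Pool.Agent.S03669

open Pool.Agent Pool.Agent.W2helper59.LN in
theorem S6 : S6_final :=
  W2helper71.LN.s6_final
    (W2helper71.LN.s5_chain (W2helper26.LN.s4_step W2helper68.LN.s1_defect)
      W2helper68.LN.s4_jump (W2helper71.LN.p5_exists W2helper14.LN.p1_exists)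
      (W2helper71.LN.p5_hol W2helper14.LN.p1_exists W2helper14.LN.p1_stab W2helper14.LN.p1_zero)
      (W2helper71.LN.p5_real W2helper14.LN.p1_stab))
    W2helper68.LN.s4_jump (W2helper71.LN.p5_real W2helper14.LN.p1_stab)

open Pool.Agent Pool.Agent.W2helper59.LN in
theorem P11w : P11_window :=
  W2helper26.LN.p11_window W2helper56.LN.p W2helper53.LN.P7.p
    (W2helper4.LN.p8_exit W2helper14.LN.p1_stab) W2helper4.LN.p9_planar W2helper4.LN.p9_zero

open Pool.Agent Pool.Agent.W2helper59.LN in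
theorem HAE : AE := W2helper26.LN.ae S6 (W2helper26.LN.p10_exit W2helper14.LN.p1_stab)

/-- For u''+(2/r)u'+λ(u^4+u^7)=0, u'(0)=u(1)=0, u>0, the positive-solution set in the (λ,u(0)) plane has two lowest connected components, each with one turning point: λ strictly decreases then strictly increases as u(0) grows. -/
theorem result :
    ∀ S : Set (ℝ × ℝ),
      (∀ l a : ℝ, (l, a) ∈ S ↔
        (0 < l ∧ ∃ u : ℝ → ℝ, ∃ ε : ℝ, 0 < ε ∧
          ContDiffOn ℝ 2 u (Set.Ioo (-ε) (1 + ε)) ∧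
          u 0 = a ∧ deriv u 0 = 0 ∧ u 1 = 0 ∧
          (∀ r ∈ Set.Ico (0:ℝ) 1, 0 < u r) ∧
          ∀ r ∈ Set.Ioc (0:ℝ) 1,
            deriv (deriv u) r + 2 / r * deriv u r + l * (u r ^ 4 + u r ^ 7) = 0)) →
      ∃ x1 ∈ S, ∃ x2 ∈ S,
        connectedComponentIn S x1 ≠ connectedComponentIn S x2 ∧
        (∀ y ∈ S, y ∉ connectedComponentIn S x1 → y ∉ connectedComponentIn S x2 →
          ∀ z ∈ connectedComponentIn S x1 ∪ connectedComponentIn S x2, z.2 < y.2) ∧
        ∀ x ∈ ({x1, x2} : Set (ℝ × ℝ)),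
          ∃ t ∈ connectedComponentIn S x,
            (∀ y ∈ connectedComponentIn S x, ∀ z ∈ connectedComponentIn S x,
              y.2 < z.2 → z.2 ≤ t.2 → z.1 < y.1) ∧
            (∀ y ∈ connectedComponentIn S x, ∀ z ∈ connectedComponentIn S x,
              y.2 < z.2 → t.2 ≤ y.2 → y.1 < z.1) := by
  intro S hS
  obtain ⟨V, Q, hF⟩ := Pool.Agent.W2helper53.LN.P2.p_fam Pool.Agent.W2helper14.LN.p1_exists
    Pool.Agent.W2helper14.LN.p1_stab Pool.Agent.W2helper14.LN.p1_zero
  have hT := Pool.Agent.W2helper53.LN.P2.p_cont V Q hF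
  have hMA := Pool.Agent.W2helper59.LN.ma_of (Pool.Agent.W2helper59.LN.ar1 S6)
    (Pool.Agent.W2helper59.LN.ar2 S6) (Pool.Agent.W2helper59.LN.aw1 S6 P11w HAE)
    (Pool.Agent.W2helper59.LN.aw2 S6 P11w) hF hT
  exact Pool.Agent.W2helper26.LN.p3_red V Q hF hT hMA S hS

end Pool.Agent.S03669
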