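import Pool.Statements.S05648
import Pool.Agent.W2helper24.HS.Fin

/-!
Statement S05648 (problem MP_a271d0_an, negated form).

The counterexample: `N = 3`, `s = 1`, `p = 4` (so `2*(s) - 1 = 3 < 4 < 5`) and `Ω` the ball
`B(e, 1)` with `e = (0, 0, 1)`, whose boundary contains `0`. As `Ω` is star-shaped with respect to `0`,
a Pohozaev type argument excludes positive solutions: one tests the equation with the dilations
`u_t(x) = t^{1/2} u(t x)`, `t > 1`, which belong to `H¹₀(Ω)`, and compares with `t = 1`. No regularity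
of `u` up to the boundary is needed (Hardy's and Sobolev's inequalities suffice).
-/

set_option autoImplicit false
open MeasureTheory Filter Topology
open Pool Pool.MP_a271d0_an

namespace Pool.Agent.S05648

/-- The negation of the preceding statement: For every N≥3, smooth bounded domain Ω in R^N with 0 on its boundary, s in (0,2) and 2*(s)-1<p<(N+2)/(N-2), there is an H^1_0 function u>0 on Ω weakly solving Δu - u^p + u^(2*(s)-1)/∣x∣^s = 0. -/
theorem result :
    ¬ (∀ (N : ℕ), 3 ≤ N →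
  ∀ (Ω : Set (EuclideanSpace ℝ (Fin N))),
    IsOpen Ω → IsConnected Ω → Bornology.IsBounded Ω →
    (∃ ρ : EuclideanSpace ℝ (Fin N) → ℝ,
        ContDiff ℝ ((⊤ : ℕ∞) : WithTop ℕ∞) ρ ∧ Ω = {x | ρ x < 0} ∧
        ∀ x ∈ frontier Ω, fderiv ℝ ρ x ≠ 0) →
    (0 : EuclideanSpace ℝ (Fin N)) ∈ frontier Ω →
  ∀ s : ℝ, 0 < s → s < 2 →
  ∀ p : ℝ, 2 * ((N : ℝ) - s) / ((N : ℝ) - 2) - 1 < p →
    p < ((N : ℝ) + 2) / ((N : ℝ) - 2) →
  ∃ u : EuclideanSpace ℝ (Fin N) → ℝ,
  ∃ G : EuclideanSpace ℝ (Fin N) → EuclideanSpace ℝ (Fin N),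
    MemLp u 2 volume ∧ MemLp G 2 volume ∧
    (∃ φ : ℕ → EuclideanSpace ℝ (Fin N) → ℝ,
        (∀ n, ContDiff ℝ ((⊤ : ℕ∞) : WithTop ℕ∞) (φ n) ∧
              HasCompactSupport (φ n) ∧ tsupport (φ n) ⊆ Ω) ∧
        Tendsto (fun n => eLpNorm (fun x => φ n x - u x) 2 volume) atTop (𝓝 0) ∧
        Tendsto (fun n => eLpNorm (fun x => gradient (φ n) x - G x) 2 volume)
          atTop (𝓝 0)) ∧
    (∀ᵐ x ∂(volume : Measure (EuclideanSpace ℝ (Fin N))), x ∈ Ω → 0 < u x) ∧
    ∀ ψ : EuclideanSpace ℝ (Fin N) → ℝ,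
      ContDiff ℝ ((⊤ : ℕ∞) : WithTop ℕ∞) ψ → HasCompactSupport ψ → tsupport ψ ⊆ Ω →
        Integrable (fun x => inner ℝ (G x) (gradient ψ x)) volume ∧
        Integrable (fun x => u x ^ p * ψ x) volume ∧
        Integrable (fun x => u x ^ (2 * ((N : ℝ) - s) / ((N : ℝ) - 2) - 1) * ψ x / ‖x‖ ^ s)
          volume ∧
        ∫ x, (inner ℝ (G x) (gradient ψ x) + u x ^ p * ψ x
              - u x ^ (2 * ((N : ℝ) - s) / ((N : ℝ) - 2) - 1) * ψ x / ‖x‖ ^ s) = 0) := by
  intro H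
  -- the ball
  set e : EuclideanSpace ℝ (Fin 3) := EuclideanSpace.single 2 1 with he
  have hen : ‖e‖ = 1 := by simp [he]
  set Ω : Set (EuclideanSpace ℝ (Fin 3)) := Metric.ball e 1 with hΩ
  have hball : ∀ x : EuclideanSpace ℝ (Fin 3), x ∈ Ω ↔ ‖x‖ ^ 2 < 2 * inner ℝ x e := by
    intro x
    rw [hΩ, mem_ball_iff_norm]
    have h1 : ‖x - e‖ ^ 2 = ‖x‖ ^ 2 - 2 * inner ℝ x e + 1 := by
      rw [norm_sub_sq_real, hen]; norm_num
    constructor
    · intro h
      have : ‖x - e‖ ^ 2 < 1 := by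
        have := norm_nonneg (x - e)
        nlinarith
      linarith
    · intro h
      have h2 : ‖x - e‖ ^ 2 < 1 := by linarith
      exact (sq_lt_one_iff₀ (norm_nonneg _)).1 h2
  have h0 : (0 : EuclideanSpace ℝ (Fin 3)) ∉ Ω := by
    rw [hball]; simp
  have hstar : ∀ (t : ℝ) (x : EuclideanSpace ℝ (Fin 3)), 1 ≤ t → t • x ∈ Ω → x ∈ Ω := by
    intro t x ht hx
    rw [hball] at hx ⊢
    rw [norm_smul, real_inner_smul_left, Real.norm_eq_abs, mul_pow, sq_abs] at hx
    have h1 : t ^ 2 * ‖x‖ ^ 2 < t * (2 * inner ℝ x e) := by linarith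
    have ht0 : 0 < t := by linarith
    have h2 : t * ‖x‖ ^ 2 < 2 * inner ℝ x e := by
      have h3 : t * (t * ‖x‖ ^ 2) < t * (2 * inner ℝ x e) := by nlinarith
      exact lt_of_mul_lt_mul_left h3 ht0.le
    nlinarith [sq_nonneg ‖x‖]
  obtain ⟨u, G, hu, hG, ⟨φ, hφ, hl1, hl2⟩, hpos, heq⟩ := H 3 le_rfl Ω Metric.isOpen_ball
    ((convex_ball e 1).isConnected ⟨e, by simp⟩) Metric.isBounded_ball
    ⟨fun x => ‖x - e‖ ^ 2 - 1, ((contDiff_id.sub contDiff_const).norm_sq ℝ).sub contDiff_const, by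
      ext x
      rw [hΩ, mem_ball_iff_norm, Set.mem_ofPred_eq]
      constructor
      · intro h
        have := norm_nonneg (x - e)
        nlinarith
      · intro h
        exact (sq_lt_one_iff₀ (norm_nonneg _)).1 (by linarith), by
      intro x hx hd
      rw [hΩ, frontier_ball e one_ne_zero, mem_sphere_iff_norm] at hx
      have h1 : HasFDerivAt (fun y : EuclideanSpace ℝ (Fin 3) => ‖y - e‖ ^ 2 - 1)
          (2 • (innerSL ℝ (x - e))) x := by
        have h2 : HasFDerivAt (fun y : EuclideanSpace ℝ (Fin 3) => y - e)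
            (ContinuousLinearMap.id ℝ (EuclideanSpace ℝ (Fin 3))) x := (hasFDerivAt_id x).sub_const e
        have h3 := (hasStrictFDerivAt_norm_sq (x - e)).hasFDerivAt.comp x h2
        exact (h3.sub_const 1).congr_fderiv (by ext v; simp)
      rw [h1.fderiv] at hd
      have h2 := congrArg (fun L : EuclideanSpace ℝ (Fin 3) →L[ℝ] ℝ => L (x - e)) hd
      have h3 : (2 • (innerSL ℝ (x - e))) (x - e) = 2 := by
        rw [smul_apply, innerSL_apply_apply, real_inner_self_eq_norm_sq, hx]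
        norm_num
      simp only [h3] at h2
      norm_num at h2⟩
    (by
      rw [hΩ, frontier_ball e one_ne_zero, mem_sphere_iff_norm]
      simp [hen])
    1 one_pos (by norm_num) 4 (by norm_num) (by norm_num)
  -- data
  have D : Pool.Agent.W2helper24.HS.Data Ω u G φ :=
    ⟨hu, hG, fun n => ⟨(hφ n).1, (hφ n).2.1, (hφ n).2.2⟩, hl1, hl2⟩
  obtain ⟨ns, -, hae⟩ := Pool.Agent.W2helper24.HS.exists_ae_subseq D
  have hout : ∀ᵐ x : EuclideanSpace ℝ (Fin 3), x ∉ Ω → u x = 0 := by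
    filter_upwards [hae] with x hx hxΩ
    have h1 : ∀ k, φ (ns k) x = 0 := fun k =>
      image_eq_zero_of_notMem_tsupport fun h => hxΩ ((hφ (ns k)).2.2 h)
    simp only [h1] at hx
    exact tendsto_nhds_unique hx tendsto_const_nhds
  set v : EuclideanSpace ℝ (Fin 3) → ℝ := fun x => max (u x) 0 with hv
  have huv : u =ᵐ[volume] v := by
    filter_upwards [hout, hpos] with x h1 h2
    simp only [hv]
    by_cases hx : x ∈ Ω
    · exact (max_eq_left (h2 hx).le).symm
    · rw [h1 hx]; simp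
  have Dv : Pool.Agent.W2helper24.HS.Data Ω v G φ := by
    refine ⟨hu.ae_eq huv, hG, fun n => ⟨(hφ n).1, (hφ n).2.1, (hφ n).2.2⟩, ?_, hl2⟩
    refine hl1.congr fun n => eLpNorm_congr_ae ?_
    filter_upwards [huv] with x hx
    rw [hx]
  have hv0 : ∀ x, 0 ≤ v x := fun x => le_max_right _ _
  have heqv : ∀ ψ, Pool.Agent.W2helper24.HS.IsTest Ω ψ →
      ∫ x, (inner ℝ (G x) (gradient ψ x) + v x ^ 4 * ψ x - v x ^ 3 * ψ x / ‖x‖) = 0 := by
    intro ψ hψ
    have h := (heq ψ hψ.smooth hψ.cpt hψ.sub).2.2.2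
    rw [← h]
    refine integral_congr_ae ?_
    filter_upwards [huv] with x hx
    rw [hx]
    have e1 : v x ^ (4 : ℝ) = v x ^ 4 := by
      rw [show (4 : ℝ) = ((4 : ℕ) : ℝ) by norm_num, Real.rpow_natCast]
    have e2 : (2 * (((3 : ℕ) : ℝ) - 1) / (((3 : ℕ) : ℝ) - 2) - 1) = ((3 : ℕ) : ℝ) := by norm_num
    rw [e1, e2, Real.rpow_natCast, Real.rpow_one]
  have hcore := Pool.Agent.W2helper24.HS.core h0 hstar Dv hv0 heqv
  have i5 : Integrable (fun x => v x ^ 5) := by
    refine (Pool.Agent.W2helper24.HS.int_pow Dv.memu (Pool.Agent.W2helper24.HS.mem_six Dv) 5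
      (by norm_num) (by norm_num)).congr (Eventually.of_forall fun x => ?_)
    simp only
    rw [abs_of_nonneg (hv0 x)]
  have h5 : ∫ x, v x ^ 5 = 0 := le_antisymm hcore (integral_nonneg fun x => pow_nonneg (hv0 x) 5)
  rw [integral_eq_zero_iff_of_nonneg (fun x => pow_nonneg (hv0 x) 5) i5] at h5
  have hΩ0 : volume Ω = 0 := by
    have : ∀ᵐ x : EuclideanSpace ℝ (Fin 3), x ∉ Ω := by
      filter_upwards [h5, hpos, huv] with x h1 h2 h3 hx
      have h4 : v x ^ 5 = 0 := h1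
      have h6 : v x = 0 := by simpa using h4
      have := h2 hx
      rw [h3, h6] at this
      exact lt_irrefl _ this
    exact measure_mono_null (fun x hx => by simpa using hx) (ae_iff.1 this)
  have : 0 < volume Ω := Metric.measure_ball_pos volume e one_pos
  exact this.ne' hΩ0

end Pool.Agent.S05648
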