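import Pool.Statements.S05947
import Pool.Agent.W2helper22.SpecFinal

/-!
# Spectral self-affine measures with integer data have no overlap

The proof has three steps.

1. Let `μ` be spectral, `F` a set, `a` a vector. By the Parseval identity the density of a translated
piece `(μ|F) * δ_a` with respect to `μ`, if it exists and is at most `1/2`, vanishes. Take for `F` a
part of the attractor near an exposed point which meets only one piece of level `k`. If two words of
length `k` had the same integer vector then the translate of this part to the corresponding piece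
would have density at most `1/2`. Hence different words of the same length have different integer
vectors.

2. Since the integer vectors of the words of length `k` are different, and the attractor is bounded,
every point is in at most `M` pieces of level `k`, with `M` independent of `k`.

3. Let `O` be the intersection of two pieces of level one. The mean of the number of the pieces of
level `k` containing a point grows at least by `μ O` if `k` grows by one. It is at most `M`, hence
`μ O = 0`.
-/

set_option autoImplicit false
open MeasureTheory Matrix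
open Pool Pool.MP_bc76ba_an

namespace Pool.Agent.S05947

/-- For an expanding integer matrix R and finite digit set B in Z^d, if the equal-weight self-affine measure is spectral, then the pieces R^{-1}(T+b) of its attractor T pairwise meet in a set of measure zero. -/
theorem result :
  ∀ (d : ℕ) (R : Matrix (Fin d) (Fin d) ℤ) (B : Finset (Fin d → ℤ))
    (φ : (Fin d → ℤ) → (Fin d → ℝ) → (Fin d → ℝ))
    (μ : MeasureTheory.Measure (Fin d → ℝ)),
    (∀ z : ℂ, (R.map (Int.castRingHom ℂ)).charpoly.IsRoot z → 1 < ‖z‖) →
    (∀ b x, φ b x = (R.map (Int.castRingHom ℝ))⁻¹ *ᵥ (x + fun i => (b i : ℝ))) →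
    MeasureTheory.IsProbabilityMeasure μ →
    μ = ∑ b ∈ B, ((B.card : ENNReal)⁻¹) • μ.map (φ b) →
    (∃ (Λ : Set (Fin d → ℝ)) (e : Λ → MeasureTheory.Lp ℂ 2 μ),
      (∀ l : Λ, (e l : (Fin d → ℝ) → ℂ) =ᵐ[μ]
        fun x => Complex.exp (2 * Real.pi * Complex.I
          * ((∑ i, (l : Fin d → ℝ) i * x i : ℝ) : ℂ))) ∧
      Orthonormal ℂ e ∧
      (Submodule.span ℂ (Set.range e)).topologicalClosure = ⊤) →
    ∀ T : Set (Fin d → ℝ), IsCompact T → T.Nonempty → T = ⋃ b ∈ B, φ b '' T →
    ∀ b ∈ B, ∀ b' ∈ B, b ≠ b' → μ (φ b '' T ∩ φ b' '' T) = 0 := by
  intro d R B φ μ hR hφ hp hμ hspec T hTc hTn hT b hb b' hb' hne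
  obtain ⟨Λ, e, he, hon, hsp⟩ := hspec
  have h : Pool.Agent.W2helper22.SA R B φ μ := ⟨hR, hφ, hp, hμ⟩
  exact h.no_overlap hTc hT (fun k => h.gam_injOn Λ e he hon hsp hTc hTn hT k) hb hb' hne

end Pool.Agent.S05947
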