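import Pool.Statements.S06190
import Pool.Agent.W2helper17.BL.Phi
-- import your own Pool.Agent.* helpers here

set_option autoImplicit false
open scoped CStarMatrix
open Pool Pool.MP_cdaa24_an

namespace Pool.Agent.S06190

/-- The negation of the preceding statement: For all C*-algebras A, B and Hilbert spaces H, every jointly completely bounded bilinear map A×B→B(H) splits as φ₁(a,b)+φ₂(b,a), with φ₁ multiplicatively (Haagerup) bounded on A×B and φ₂ multiplicatively bounded on B×A. -/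
theorem result :
    ¬ (∀ (A B H : Type) [NonUnitalCStarAlgebra A] [PartialOrder A] [StarOrderedRing A]
      [NonUnitalCStarAlgebra B] [PartialOrder B] [StarOrderedRing B]
      [NormedAddCommGroup H] [InnerProductSpace ℂ H] [CompleteSpace H]
      (φ : A →ₗ[ℂ] B →ₗ[ℂ] (H →L[ℂ] H)),
      (∃ C : ℝ, ∀ (n m : ℕ) (a : CStarMatrix (Fin n) (Fin n) A)
          (b : CStarMatrix (Fin m) (Fin m) B) (x : Fin n × Fin m → H),
          ∑ p : Fin n × Fin m, ‖∑ q : Fin n × Fin m, φ (a p.1 q.1) (b p.2 q.2) (x q)‖ ^ 2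
            ≤ (C * ‖a‖ * ‖b‖) ^ 2 * ∑ q : Fin n × Fin m, ‖x q‖ ^ 2) →
      ∃ (φ₁ : A →ₗ[ℂ] B →ₗ[ℂ] (H →L[ℂ] H)) (φ₂ : B →ₗ[ℂ] A →ₗ[ℂ] (H →L[ℂ] H)),
        (∃ C : ℝ, ∀ (n : ℕ) (a : CStarMatrix (Fin n) (Fin n) A)
            (b : CStarMatrix (Fin n) (Fin n) B) (x : Fin n → H),
            ∑ i : Fin n, ‖∑ j : Fin n, ∑ k : Fin n, φ₁ (a i k) (b k j) (x j)‖ ^ 2
              ≤ (C * ‖a‖ * ‖b‖) ^ 2 * ∑ j : Fin n, ‖x j‖ ^ 2) ∧
        (∃ C : ℝ, ∀ (n : ℕ) (b : CStarMatrix (Fin n) (Fin n) B)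
            (a : CStarMatrix (Fin n) (Fin n) A) (x : Fin n → H),
            ∑ i : Fin n, ‖∑ j : Fin n, ∑ k : Fin n, φ₂ (b i k) (a k j) (x j)‖ ^ 2
              ≤ (C * ‖b‖ * ‖a‖) ^ 2 * ∑ j : Fin n, ‖x j‖ ^ 2) ∧
        ∀ (a : A) (b : B), φ a b = φ₁ a b + φ₂ b a) := by
  intro h
  let _ : PartialOrder (BoundedContinuousFunction Pool.Agent.W2helper17.BL.Om ℂ) :=
    CStarAlgebra.spectralOrder _
  have _ : StarOrderedRing (BoundedContinuousFunction Pool.Agent.W2helper17.BL.Om ℂ) :=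
    CStarAlgebra.spectralOrderedRing _
  obtain ⟨φ₁, φ₂, ⟨C₁, h₁⟩, ⟨C₂, h₂⟩, hs⟩ := h
    (BoundedContinuousFunction Pool.Agent.W2helper17.BL.Om ℂ)
    (BoundedContinuousFunction Pool.Agent.W2helper17.BL.Om ℂ) Pool.Agent.W2helper17.BL.HH
    Pool.Agent.W2helper17.BL.Phi ⟨2, fun n m a b x => Pool.Agent.W2helper17.BL.phi_jcb n m a b x⟩
  have key : ∀ j : ℕ, (2 : ℝ) ^ j ≤ Real.sqrt 2 * (|C₁| + |C₂|) := by
    intro j
    refine (Pool.Agent.W2helper17.BL.wt_big j).trans ?_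
    refine Pool.Agent.W2helper17.BL.lower (Pool.Agent.W2helper17.BL.Pr_three j) φ₁ φ₂ C₁ C₂ h₁ h₂
      (Pool.Agent.W2helper17.BL.pt j) (Pool.Agent.W2helper17.BL.gg j)
      (fun x k => Pool.Agent.W2helper17.BL.gf_same j k x) ?_
      (fun x => lp.single 2 (Pool.Agent.W2helper17.BL.pt j x) (1 : ℂ)) ?_
      Pool.Agent.W2helper17.BL.e0 Pool.Agent.W2helper17.BL.e0_norm _ ?_
    · rintro ⟨i, x⟩
      by_cases hij : i = j
      · subst hij
        exact Or.inl ⟨x, rfl⟩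
      · exact Or.inr fun k => Pool.Agent.W2helper17.BL.gf_other j k _ hij
    · intro x
      rw [lp.norm_single (by norm_num)]
      simp
    · intro k l
      have h3 := congrArg (fun T : Pool.Agent.W2helper17.BL.HH →L[ℂ] Pool.Agent.W2helper17.BL.HH =>
        T Pool.Agent.W2helper17.BL.e0)
        (hs (Pool.Agent.W2helper17.BL.gg j k) (Pool.Agent.W2helper17.BL.gg j l))
      rw [Pool.Agent.W2helper17.BL.Phi_apply, ← Pool.Agent.W2helper17.BL.nsq,
        Pool.Agent.W2helper17.BL.e0_norm, Pool.Agent.W2helper17.BL.VV_gg] at h3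
      rw [_root_.add_apply] at h3
      rw [← h3]
      simp
  obtain ⟨j, hj⟩ := pow_unbounded_of_one_lt (Real.sqrt 2 * (|C₁| + |C₂|)) (one_lt_two : (1 : ℝ) < 2)
  exact absurd (key j) (not_le.2 hj)

end Pool.Agent.S06190
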