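import Pool.Statements.S06350
import Pool.Agent.W2helper19.Counter

/-!
# MP_d89f1e_an: the negation is true

The counterexample lives in dimension 4.  Let `h = (g, τ₀, τ₁, τ₂)` be a holomorphic map of the unit
disc into `ℂ⁴` (a lacunary series, `Pool.Agent.W2helper19.exists_wild`) such that near EVERY boundary
point `t` of the disc and for EVERY `q ∈ ℂ³` there are `w` with `τ(w)` close to `q` and
`|exp (g (w))|² (1 - |w|²)` as large as we please.  With `λ = exp ∘ g` put

  `f (x, y, u, w) = (λ x + τ₀, λ y (1 - λ² x y - u) + τ₁, u + 2 λ² x y + τ₂, w)`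

(in the fibre over `w` this is Wermer's map of `ℂ² × {|u| < 1}`).  The map `f` is univalent on the unit
ball.  Its image contains the boundaries of the closed analytic discs
`A = {(a ζ + τ₀, τ₁, 2 + τ₂, w) : |ζ| ≤ 1}`, `a² + a⁻² < |λ|² (1 - |w|²)`, but not their centres.  If
univalent entire maps with a common range `Ω` converge to `f`, then no such disc is contained in `Ω`
(maximum principle for the inverse maps and a Hurwitz type argument).  These discs
shrink to every point of `ℂ³ × ∂𝔻`; so `Ω` does not meet `ℂ³ × ∂𝔻`, and the last coordinate of the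
entire maps is bounded, which contradicts Liouville's theorem.
-/

set_option autoImplicit false
open Pool Pool.MP_d89f1e_an

namespace Pool.Agent.S06350

/-- The negation of the preceding statement: For n≥2, if f is a normalized univalent holomorphic map of the unit ball whose image is not Runge, then there are normalized injective entire maps Ψ_k, all with the same proper image Ω, converging to f locally uniformly on the ball. -/
theorem result :
    ¬ (∀ n : ℕ, 2 ≤ n →
    ∀ f : EuclideanSpace ℂ (Fin n) → EuclideanSpace ℂ (Fin n),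
      DifferentiableOn ℂ f (Metric.ball 0 1) →
      Set.InjOn f (Metric.ball 0 1) →
      f 0 = 0 →
      fderiv ℂ f 0 = ContinuousLinearMap.id ℂ (EuclideanSpace ℂ (Fin n)) →
      ¬ (∀ g : EuclideanSpace ℂ (Fin n) → ℂ,
          DifferentiableOn ℂ g (f '' Metric.ball 0 1) →
          ∀ K : Set (EuclideanSpace ℂ (Fin n)), IsCompact K → K ⊆ f '' Metric.ball 0 1 →
          ∀ ε : ℝ, 0 < ε →
          ∃ p : MvPolynomial (Fin n) ℂ, ∀ z ∈ K,
            ‖g z - MvPolynomial.eval (fun i => EuclideanSpace.proj i z) p‖ < ε) →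
      ∃ Ω : Set (EuclideanSpace ℂ (Fin n)), Ω ≠ Set.univ ∧
        ∃ Ψ : ℕ → EuclideanSpace ℂ (Fin n) → EuclideanSpace ℂ (Fin n),
          (∀ k, Differentiable ℂ (Ψ k) ∧ Function.Injective (Ψ k) ∧ Ψ k 0 = 0 ∧
              fderiv ℂ (Ψ k) 0 = ContinuousLinearMap.id ℂ (EuclideanSpace ℂ (Fin n)) ∧
              Set.range (Ψ k) = Ω) ∧
          TendstoLocallyUniformlyOn Ψ f Filter.atTop (Metric.ball 0 1)) := by
  intro H
  obtain ⟨f, hf, hi, h0, hd, hR, hno⟩ := Pool.Agent.W2helper19.main
  obtain ⟨Ω, -, Ψ, hΨ, hlim⟩ := H 4 (by norm_num) f hf hi h0 hd hR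
  exact hno ⟨Ω, Ψ, hΨ, hlim⟩

end Pool.Agent.S06350
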