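import Pool.Statements.S06450
import Pool.Agent.W2helper15.SCD.Space

set_option autoImplicit false
open Pool Pool.MP_e11434_an

namespace Pool.Agent.S06450

/-- The negation of the preceding statement: Every separable real Banach space that is not SCD (some nonempty bounded convex set has no sequence of slices whose every selection has closed convex hull containing it) is isomorphic to a space where ‖Id+T‖=1+‖T‖ for all rank-one T. -/
theorem result :
    ¬ (∀ (X : Type) [NormedAddCommGroup X] [NormedSpace ℝ X] [CompleteSpace X]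
      [TopologicalSpace.SeparableSpace X],
      (¬ ∀ A : Set X, A.Nonempty → Convex ℝ A → Bornology.IsBounded A →
          ∃ (f : ℕ → (X →L[ℝ] ℝ)) (c : ℕ → ℝ),
            (∀ n, ∃ x ∈ A, c n < f n x) ∧
            ∀ y : ℕ → X, (∀ n, y n ∈ A ∧ c n < f n (y n)) →
              A ⊆ closure (convexHull ℝ (Set.range y))) →
      ∃ (Y : Type) (_ : NormedAddCommGroup Y) (_ : NormedSpace ℝ Y),
        Nonempty (X ≃L[ℝ] Y) ∧
        ∀ (f : Y →L[ℝ] ℝ) (v : Y),
          ‖ContinuousLinearMap.id ℝ Y + f.smulRight v‖ = 1 + ‖f.smulRight v‖) := by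
  intro h
  obtain ⟨Y, i1, i2, ⟨e⟩, hY⟩ := h Pool.Agent.W2helper15.SCD.XT (by
    intro hA
    obtain ⟨f, c, h1, h2⟩ := hA (convexHull ℝ (Set.range Pool.Agent.W2helper15.SCD.a))
      ((Set.range_nonempty _).convexHull) (convex_convexHull ℝ _)
      Pool.Agent.W2helper15.SCD.isBounded_hull
    obtain ⟨y, h3, h4⟩ := Pool.Agent.W2helper15.SCD.not_scd f c h1
    exact h4 (h2 y h3))
  exact Pool.Agent.W2helper15.SCD.no_daugavet e Pool.Agent.W2helper15.SCD.w
    Pool.Agent.W2helper15.SCD.v Pool.Agent.W2helper15.SCD.norm_sum_le'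
    Pool.Agent.W2helper15.SCD.approx hY

end Pool.Agent.S06450
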