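import Pool.Statements.S07487
import Pool.Agent.Helper539.General

set_option autoImplicit false
open Pool Pool.MP_1cfd87_co

namespace Pool.Agent.S07487

open SimpleGraph Pool.Agent.Helper539

/-- The set of edge numbers in the frozen statement contains the set which defines `sizeRamsey`. -/
theorem arrows_imp {k t m : ℕ} {G : SimpleGraph (Fin k)} {F : SimpleGraph (Fin m)}
    (h : Arrows F G (matchingGraph t)) : ∀ R : SimpleGraph (Fin m), R ≤ F →
            (∃ f : Fin k → Fin m, Function.Injective f ∧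
                ∀ a b, G.Adj a b → R.Adj (f a) (f b)) ∨
            (∃ g : Fin t ⊕ Fin t → Fin m, Function.Injective g ∧
                ∀ i, F.Adj (g (Sum.inl i)) (g (Sum.inr i)) ∧
                  ¬ R.Adj (g (Sum.inl i)) (g (Sum.inr i))) := by
  intro R hR
  rcases h R hR with h | h
  · left
    obtain ⟨f⟩ := h
    exact ⟨f, f.injective, fun a b hab => f.toHom.map_adj hab⟩
  · right
    rw [matchingGraph_isContained_iff] at h
    obtain ⟨f, hf, hadj⟩ := h
    refine ⟨fun x => f (Sum.elim (fun i => (i, false)) (fun i => (i, true)) x), ?_, ?_⟩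
    · rintro (i | i) (j | j) hij
      · have := hf hij
        simp only [Sum.elim_inl, Prod.mk.injEq] at this
        rw [this.1]
      · have := hf hij
        simp at this
      · have := hf hij
        simp at this
      · have := hf hij
        simp only [Sum.elim_inr, Prod.mk.injEq] at this
        rw [this.1]
    · intro i
      have := hadj i
      rw [SimpleGraph.sdiff_adj] at this
      exact this

/-- For any sequence of graphs without isolated vertices, with at least one edge, bounded max degree and vertex count tending to infinity, the limsup over t of the size Ramsey number of (G_n, tK_2) divided by t times ∣E(G_n)∣ tends to 0. -/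
theorem result :
  ∀ (k : ℕ → ℕ) (G : ∀ n, SimpleGraph (Fin (k n))),
    Filter.Tendsto k Filter.atTop Filter.atTop →
    (∃ D : ℕ, ∀ n v, ((G n).neighborSet v).ncard ≤ D) →
    (∀ n, ∃ v w, (G n).Adj v w) →
    (∀ n v, ∃ w, (G n).Adj v w) →
    ∀ ε : ℝ, 0 < ε → ∃ N : ℕ, ∀ n ≥ N, ∃ T : ℕ, ∀ t ≥ T,
      ((sInf {e : ℕ | ∃ (m : ℕ) (F : SimpleGraph (Fin m)), F.edgeSet.ncard = e ∧
          ∀ R : SimpleGraph (Fin m), R ≤ F →
            (∃ f : Fin (k n) → Fin m, Function.Injective f ∧
                ∀ a b, (G n).Adj a b → R.Adj (f a) (f b)) ∨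
            (∃ g : Fin t ⊕ Fin t → Fin m, Function.Injective g ∧
                ∀ i, F.Adj (g (Sum.inl i)) (g (Sum.inr i)) ∧
                  ¬ R.Adj (g (Sum.inl i)) (g (Sum.inr i)))} : ℕ) : ℝ)
        / ((t : ℝ) * (((G n).edgeSet.ncard : ℕ) : ℝ)) ≤ ε := by
  intro k G hk hD hedge hiso ε hε
  obtain ⟨D, hD⟩ := hD
  obtain ⟨η, hη, h⟩ := general_case.{0} (ε / 2) (half_pos hε)
  obtain ⟨M, hM⟩ := exists_nat_ge (2 * (D : ℝ) / η)
  obtain ⟨N, hN⟩ := Filter.eventually_atTop.1 (hk.eventually_ge_atTop M)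
  refine ⟨N, fun n hn => ?_⟩
  have hMn : M ≤ k n := hN n hn
  have hne : (G n).edgeSet.Nonempty := by
    obtain ⟨v, w, hvw⟩ := hedge n
    exact ⟨s(v, w), hvw⟩
  have hm : (0 : ℝ) < (G n).edgeSet.ncard := by
    have : 0 < (G n).edgeSet.ncard := (Set.ncard_pos (Set.toFinite _)).2 hne
    exact_mod_cast this
  have hcard := card_le_two_mul (G n) (hiso n)
  rw [Fintype.card_fin] at hcard
  have hdeg : ∀ v, (((G n).neighborSet v).ncard : ℝ) ≤ η * (G n).edgeSet.ncard := by
    intro v
    have h1 : (((G n).neighborSet v).ncard : ℝ) ≤ D := by exact_mod_cast hD n v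
    have h2 : (M : ℝ) ≤ 2 * (G n).edgeSet.ncard := by exact_mod_cast hMn.trans hcard
    have h3 : 2 * (D : ℝ) / η ≤ 2 * (G n).edgeSet.ncard := hM.trans h2
    rw [div_le_iff₀ hη] at h3
    linarith
  obtain ⟨t₀, ht₀, hle⟩ := h (Fin (k n)) (G n) hne (hiso n) hdeg
  obtain ⟨ρ, hρ, hρ0, hρle⟩ := exists_limit (G n)
  have hρε : ρ < ε := by
    have h1 := hρle t₀ (by omega)
    have ht : (0 : ℝ) < t₀ := by exact_mod_cast ht₀
    have h2 : (sizeRamsey (G n) (matchingGraph t₀) : ℝ) / (t₀ * (G n).edgeSet.ncard) ≤ ε / 2 := by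
      rw [div_le_iff₀ (by positivity)]
      exact hle
    linarith
  obtain ⟨T, hT⟩ := Filter.eventually_atTop.1 ((tendsto_order.1 hρ).2 ε hρε)
  refine ⟨T, fun t ht => ?_⟩
  have h1 := hT t ht
  refine le_trans ?_ h1.le
  apply div_le_div_of_nonneg_right _ (by positivity)
  have h2 : ∃ (N : ℕ) (F : SimpleGraph (Fin N)),
      F.edgeSet.ncard = sizeRamsey (G n) (matchingGraph t) ∧
      Arrows F (G n) (matchingGraph t) := exists_sizeRamsey (G n) t
  obtain ⟨m, F, hF, hA⟩ := h2
  have : sInf {e : ℕ | ∃ (m : ℕ) (F : SimpleGraph (Fin m)), F.edgeSet.ncard = e ∧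
          ∀ R : SimpleGraph (Fin m), R ≤ F →
            (∃ f : Fin (k n) → Fin m, Function.Injective f ∧
                ∀ a b, (G n).Adj a b → R.Adj (f a) (f b)) ∨
            (∃ g : Fin t ⊕ Fin t → Fin m, Function.Injective g ∧
                ∀ i, F.Adj (g (Sum.inl i)) (g (Sum.inr i)) ∧
                  ¬ R.Adj (g (Sum.inl i)) (g (Sum.inr i)))} ≤
      sizeRamsey (G n) (matchingGraph t) :=
    Nat.sInf_le ⟨m, F, hF, arrows_imp hA⟩
  exact_mod_cast this

end Pool.Agent.S07487
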