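import Pool.Statements.S08268

set_option autoImplicit false
open Pool Pool.MP_3df3be_co

namespace Pool.Agent.S08268

/-- In a Latin square of order 8 there cannot be both a Latin subsquare of order 4 and a Latin
subsquare of order 3. -/
lemma no_eight (L : Fin 8 → Fin 8 → Fin 8) (hrow : ∀ i : Fin 8, Function.Bijective (L i))
    (hcol : ∀ j : Fin 8, Function.Bijective (fun i : Fin 8 => L i j))
    (R C S : Finset (Fin 8)) (hR : R.card = 4) (hC : C.card = 4) (hS : S.card = 4)
    (h4 : ∀ r ∈ R, ∀ c ∈ C, L r c ∈ S)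
    (R3 C3 S3 : Finset (Fin 8)) (hR3 : R3.card = 3) (hC3 : C3.card = 3) (hS3 : S3.card = 3)
    (h3 : ∀ r ∈ R3, ∀ c ∈ C3, L r c ∈ S3) : False := by
  classical
  -- the rows of a subsquare contain all its symbols inside its columns
  have rowimg : ∀ (A B T : Finset (Fin 8)), B.card = T.card → (∀ r ∈ A, ∀ c ∈ B, L r c ∈ T) →
      ∀ r ∈ A, B.image (L r) = T := by
    intro A B T hBT h r hr
    apply Finset.eq_of_subset_of_card_le
    · intro x hx
      obtain ⟨c, hc, rfl⟩ := Finset.mem_image.1 hx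
      exact h r hr c hc
    · rw [Finset.card_image_of_injective _ (hrow r).1, hBT]
  have colimg : ∀ (A B T : Finset (Fin 8)), A.card = T.card → (∀ r ∈ A, ∀ c ∈ B, L r c ∈ T) →
      ∀ c ∈ B, A.image (fun i => L i c) = T := by
    intro A B T hAT h c hc
    apply Finset.eq_of_subset_of_card_le
    · intro x hx
      obtain ⟨r, hr, rfl⟩ := Finset.mem_image.1 hx
      exact h r hr c hc
    · rw [Finset.card_image_of_injective _ (hcol c).1, hAT]
  have rowmem : ∀ (A B T : Finset (Fin 8)), B.card = T.card → (∀ r ∈ A, ∀ c ∈ B, L r c ∈ T) →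
      ∀ r ∈ A, ∀ x, L r x ∈ T → x ∈ B := by
    intro A B T hBT h r hr x hx
    rw [← rowimg A B T hBT h r hr] at hx
    obtain ⟨c, hc, hcx⟩ := Finset.mem_image.1 hx
    rw [← (hrow r).1 hcx]; exact hc
  have colmem : ∀ (A B T : Finset (Fin 8)), A.card = T.card → (∀ r ∈ A, ∀ c ∈ B, L r c ∈ T) →
      ∀ c ∈ B, ∀ x, L x c ∈ T → x ∈ A := by
    intro A B T hAT h c hc x hx
    rw [← colimg A B T hAT h c hc] at hx
    obtain ⟨r, hr, hrx⟩ := Finset.mem_image.1 hx
    rw [← (hcol c).1 hrx]; exact hr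
  -- the square splits into four subsquares of order four
  have E : ∀ r c, L r c ∈ S ↔ (r ∈ R ↔ c ∈ C) := by
    intro r c
    by_cases hc : c ∈ C
    · constructor
      · intro h
        exact ⟨fun _ => hc, fun _ => colmem R C S (by rw [hR, hS]) h4 c hc r h⟩
      · intro h
        exact h4 r (h.2 hc) c hc
    · have himg : (Finset.univ \ R).image (fun i => L i c) = S := by
        symm
        apply Finset.eq_of_subset_of_card_le
        · intro s hs
          obtain ⟨i, hi⟩ := (hcol c).2 s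
          simp only at hi
          refine Finset.mem_image.2 ⟨i, ?_, hi⟩
          simp only [Finset.mem_sdiff, Finset.mem_univ, true_and]
          intro hiR
          exact hc (rowmem R C S (by rw [hC, hS]) h4 i hiR c (by rw [hi]; exact hs))
        · refine Finset.card_image_le.trans ?_
          rw [Finset.card_sdiff_of_subset (Finset.subset_univ R), hR, hS]
          simp
      constructor
      · intro h
        constructor
        · intro hr
          exact rowmem R C S (by rw [hC, hS]) h4 r hr c h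
        · intro h'; exact absurd h' hc
      · intro h
        have hr : r ∉ R := fun hr => hc (h.1 hr)
        rw [← himg]
        exact Finset.mem_image.2 ⟨r, by simp [hr], rfl⟩
  -- all rows of the small subsquare lie on one side
  have cnt : ∀ r ∈ R3, (S3 ∩ S).card = (C3.filter (fun c => L r c ∈ S)).card := by
    intro r hr
    rw [← Finset.card_image_of_injective (C3.filter (fun c => L r c ∈ S)) (hrow r).1]
    congr 1
    ext s
    simp only [Finset.mem_inter, Finset.mem_image, Finset.mem_filter]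
    constructor
    · rintro ⟨h1, h2⟩
      rw [← rowimg R3 C3 S3 (by rw [hC3, hS3]) h3 r hr] at h1
      obtain ⟨c, hc, rfl⟩ := Finset.mem_image.1 h1
      exact ⟨c, ⟨hc, h2⟩, rfl⟩
    · rintro ⟨c, ⟨hc, h⟩, rfl⟩
      exact ⟨h3 r hr c hc, h⟩
  have cnt' : ∀ c ∈ C3, (S3 ∩ S).card = (R3.filter (fun r => L r c ∈ S)).card := by
    intro c hc
    rw [← Finset.card_image_of_injective (R3.filter (fun r => L r c ∈ S)) (hcol c).1]
    congr 1
    ext s
    simp only [Finset.mem_inter, Finset.mem_image, Finset.mem_filter]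
    constructor
    · rintro ⟨h1, h2⟩
      rw [← colimg R3 C3 S3 (by rw [hR3, hS3]) h3 c hc] at h1
      obtain ⟨r, hr, rfl⟩ := Finset.mem_image.1 h1
      exact ⟨r, ⟨hr, h2⟩, rfl⟩
    · rintro ⟨r, ⟨hr, h⟩, rfl⟩
      exact ⟨h3 r hr c hc, h⟩
  have sameR : ∀ r₁ ∈ R3, ∀ r₂ ∈ R3, r₁ ∈ R → r₂ ∈ R := by
    intro r₁ h₁ r₂ h₂ hr₁
    by_contra hr₂
    have e1 := cnt r₁ h₁
    have e2 := cnt r₂ h₂
    have f1 : C3.filter (fun c => L r₁ c ∈ S) = C3.filter (fun c => c ∈ C) := by
      apply Finset.filter_congr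
      intro c _
      rw [E]; simp [hr₁]
    have f2 : C3.filter (fun c => L r₂ c ∈ S) = C3.filter (fun c => ¬ c ∈ C) := by
      apply Finset.filter_congr
      intro c _
      rw [E]; simp [hr₂]
    rw [f1] at e1
    rw [f2] at e2
    have := Finset.card_filter_add_card_filter_not (s := C3) (fun c => c ∈ C)
    omega
  have sameC : ∀ c₁ ∈ C3, ∀ c₂ ∈ C3, c₁ ∈ C → c₂ ∈ C := by
    intro c₁ h₁ c₂ h₂ hc₁
    by_contra hc₂
    have e1 := cnt' c₁ h₁
    have e2 := cnt' c₂ h₂
    have f1 : R3.filter (fun r => L r c₁ ∈ S) = R3.filter (fun r => r ∈ R) := by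
      apply Finset.filter_congr
      intro r _
      rw [E]; simp [hc₁]
    have f2 : R3.filter (fun r => L r c₂ ∈ S) = R3.filter (fun r => ¬ r ∈ R) := by
      apply Finset.filter_congr
      intro r _
      rw [E]; simp [hc₂]
    rw [f1] at e1
    rw [f2] at e2
    have := Finset.card_filter_add_card_filter_not (s := R3) (fun r => r ∈ R)
    omega
  obtain ⟨r₁, hr₁⟩ : R3.Nonempty := by rw [← Finset.card_pos]; omega
  obtain ⟨c₁, hc₁⟩ : C3.Nonempty := by rw [← Finset.card_pos]; omega
  have side : ∀ (T : Finset (Fin 8)) (x : Fin 8), T.card = 4 →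
      (Finset.univ.filter (fun y => y ∈ T ↔ x ∈ T)).card = 4 := by
    intro T x hT
    by_cases hx : x ∈ T
    · have : Finset.univ.filter (fun y => y ∈ T ↔ x ∈ T) = T := by
        ext y; simp [hx]
      rw [this, hT]
    · have : Finset.univ.filter (fun y => y ∈ T ↔ x ∈ T) = Finset.univ \ T := by
        ext y; simp [hx]
      rw [this, Finset.card_sdiff_of_subset (Finset.subset_univ T), hT]
      simp
  -- a column of the quadrant outside the small subsquare
  obtain ⟨c₀, hc₀⟩ : ∃ c₀, c₀ ∈ Finset.univ.filter (fun y => y ∈ C ↔ c₁ ∈ C) ∧ c₀ ∉ C3 := by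
    by_contra hcon
    push Not at hcon
    have : (Finset.univ.filter (fun y => y ∈ C ↔ c₁ ∈ C)).card ≤ C3.card :=
      Finset.card_le_card (fun y hy => hcon y hy)
    rw [side C c₁ hC] at this
    omega
  obtain ⟨hc₀C, hc₀3⟩ := hc₀
  simp only [Finset.mem_filter, Finset.mem_univ, true_and] at hc₀C
  have hsub : R3.image (fun i => L i c₀) ⊆
      (Finset.univ.filter (fun y => y ∈ S ↔ L r₁ c₁ ∈ S)) \ S3 := by
    intro s hs
    obtain ⟨r, hr, rfl⟩ := Finset.mem_image.1 hs
    simp only [Finset.mem_sdiff, Finset.mem_filter, Finset.mem_univ, true_and]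
    constructor
    · rw [E, E]
      have h1 : r ∈ R ↔ r₁ ∈ R := ⟨sameR r hr r₁ hr₁, sameR r₁ hr₁ r hr⟩
      rw [h1, hc₀C]
    · intro h
      exact hc₀3 (rowmem R3 C3 S3 (by rw [hC3, hS3]) h3 r hr c₀ h)
  have hS3sub : S3 ⊆ Finset.univ.filter (fun y => y ∈ S ↔ L r₁ c₁ ∈ S) := by
    intro s hs
    rw [← rowimg R3 C3 S3 (by rw [hC3, hS3]) h3 r₁ hr₁] at hs
    obtain ⟨c, hc, rfl⟩ := Finset.mem_image.1 hs
    simp only [Finset.mem_filter, Finset.mem_univ, true_and]
    rw [E, E]
    have h1 : c ∈ C ↔ c₁ ∈ C := ⟨sameC c hc c₁ hc₁, sameC c₁ hc₁ c hc⟩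
    rw [h1]
  have hle := Finset.card_le_card hsub
  rw [Finset.card_image_of_injective _ (hcol c₀).1, Finset.card_sdiff_of_subset hS3sub,
    side S _ hS] at hle
  omega

/-- The negation of the preceding statement: For every n there is a latin square of order n such that, for each m with 1 ≤ m and 2m ≤ n, some m rows and m columns meet in an m×m subarray using only m symbols, i.e. a latin subsquare of order m. -/
theorem result :
    ¬ (∀ n : ℕ, ∃ L : Fin n → Fin n → Fin n,
      (∀ i : Fin n, Function.Bijective (L i)) ∧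
      (∀ j : Fin n, Function.Bijective (fun i : Fin n => L i j)) ∧
      ∀ m : ℕ, 1 ≤ m → 2 * m ≤ n →
        ∃ R C S : Finset (Fin n),
          R.card = m ∧ C.card = m ∧ S.card = m ∧
          ∀ r ∈ R, ∀ c ∈ C, L r c ∈ S) := by
  intro h
  obtain ⟨L, hrow, hcol, hm⟩ := h 8
  obtain ⟨R, C, S, hR, hC, hS, h4⟩ := hm 4 (by norm_num) (by norm_num)
  obtain ⟨R3, C3, S3, hR3, hC3, hS3, h3⟩ := hm 3 (by norm_num) (by norm_num)
  exact no_eight L hrow hcol R C S hR hC hS h4 R3 C3 S3 hR3 hC3 hS3 h3

end Pool.Agent.S08268
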