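import Pool.Statements.S09083
-- import your own Pool.Agent.* helpers here
import Pool.Agent.W2helper59.NW.Fin
import Pool.Agent.W2helper93.NW.G1
import Pool.Agent.W2helper66.NW.G2

set_option autoImplicit false
open Pool Pool.MP_5fb7d4_co

namespace Pool.Agent.S09083

/-- For both the regular icosahedron and the regular dodecahedron, the supremum of scale factors c such that c times the solid passes through a straight hole in the solid is the root of 2025x^8-11970x^6+17009x^4-9000x^2+2000 lying between 1.01 and 1.011. -/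
theorem result :
  ∀ V : Set (Fin 3 → ℝ),
    (V = {v | ∃ s t : ℝ, (s = 1 ∨ s = -1) ∧ (t = 1 ∨ t = -1) ∧
          (v = ![0, s, t * Real.goldenRatio] ∨ v = ![s, t * Real.goldenRatio, 0] ∨
           v = ![t * Real.goldenRatio, 0, s])} ∨
     V = {v | ∃ r s t : ℝ, (r = 1 ∨ r = -1) ∧ (s = 1 ∨ s = -1) ∧ (t = 1 ∨ t = -1) ∧
          (v = ![r, s, t] ∨ v = ![0, s / Real.goldenRatio, t * Real.goldenRatio] ∨
           v = ![s / Real.goldenRatio, t * Real.goldenRatio, 0] ∨
           v = ![t * Real.goldenRatio, 0, s / Real.goldenRatio])}) →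
    ∃ ν : ℝ,
      sSup {c : ℝ | 0 < c ∧
        ∃ A ∈ Matrix.specialOrthogonalGroup (Fin 3) ℝ,
        ∃ B ∈ Matrix.specialOrthogonalGroup (Fin 3) ℝ,
        ∃ w : Fin 2 → ℝ,
          (fun x : Fin 3 → ℝ => c • ![(A.mulVec x) 0, (A.mulVec x) 1] + w) '' convexHull ℝ V ⊆
            interior ((fun x : Fin 3 → ℝ => ![(B.mulVec x) 0, (B.mulVec x) 1]) '' convexHull ℝ V)} = ν ∧
      2025 * ν ^ 8 - 11970 * ν ^ 6 + 17009 * ν ^ 4 - 9000 * ν ^ 2 + 2000 = 0 ∧
      1.01 < ν ∧ ν < 1.011 := by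
  intro V hV
  obtain ⟨ν, hI, hD, hP, h1, h2⟩ := Pool.Agent.W2helper59.NW.main
    (Pool.Agent.W2helper59.NW.g1 Pool.Agent.W2helper59.NW.pf0)
    Pool.Agent.W2helper66.NW.g2 Pool.Agent.W2helper66.NW.g3v
  rcases hV with rfl | rfl
  · exact ⟨ν, hI, hP, h1, h2⟩
  · exact ⟨ν, hD, hP, h1, h2⟩

end Pool.Agent.S09083
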