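import Pool.Statements.S11885
import Pool.Agent.W2lead.EvenTriples

set_option autoImplicit false
open Classical
open Pool Pool.MP_dd5ef2_co

namespace Pool.Agent.S11885

open Pool.Agent.W2lead.EvenTriples in
/-- The factor of a pair of vertices is at most `fac`. -/
lemma factor_le {n : ℕ} (hn : 3 ≤ n) (G : SimpleGraph (Fin n)) {i j : Fin n} (hij : i < j) :
    (((Finset.univ.filter (fun k : Fin n => k ≠ i ∧ k ≠ j ∧
                Even ((if G.Adj i j then 1 else 0) + (if G.Adj i k then 1 else 0)
                  + (if G.Adj j k then 1 else 0) : ℕ))).card : ℝ) / ((n : ℝ) - 2)) ≤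
      fac (fun k => decide (G.Adj i k)) (fun k => decide (G.Adj j k)) (decide (G.Adj i j)) := by
  have hne : i ≠ j := ne_of_lt hij
  have hn' : (3 : ℝ) ≤ n := by exact_mod_cast hn
  set T : Finset (Fin n) := Finset.univ.filter (fun k : Fin n => k ≠ i ∧ k ≠ j ∧
    (G.Adj i k ↔ G.Adj j k)) with hT
  set U : Finset (Fin n) := Finset.univ.filter (fun k : Fin n => k ≠ i ∧ k ≠ j ∧
    ¬ (G.Adj i k ↔ G.Adj j k)) with hU
  have hcard : (T.card : ℝ) + U.card = n - 2 := by
    have h1 : T ∪ U = (Finset.univ.erase i).erase j := by
      ext k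
      simp only [hT, hU, Finset.mem_union, Finset.mem_filter, Finset.mem_univ, true_and,
        Finset.mem_erase]
      tauto
    have h2 : Disjoint T U := by
      rw [Finset.disjoint_left]
      intro k hk hk'
      simp only [hT, hU, Finset.mem_filter] at hk hk'
      exact hk'.2.2.2 hk.2.2.2
    have h3 := Finset.card_union_of_disjoint h2
    rw [h1, Finset.card_erase_of_mem (by simp [hne.symm]), Finset.card_erase_of_mem (by simp),
      Finset.card_univ, Fintype.card_fin] at h3
    have h4 : T.card + U.card + 2 = n := by omega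
    have h5 : ((T.card + U.card + 2 : ℕ) : ℝ) = n := by exact_mod_cast h4
    push_cast at h5
    linarith
  have hag : agree (fun k => decide (G.Adj i k)) (fun k => decide (G.Adj j k)) =
      (T.card + (if G.Adj i j then 0 else 2)) / n := by
    unfold agree
    congr 1
    have h1 : ∀ k : Fin n, (if decide (G.Adj i k) = decide (G.Adj j k) then (1 : ℝ) else 0) =
        (if k ∈ T then (1 : ℝ) else 0) + ((if k = i then (if G.Adj i j then 0 else 1) else 0) +
          (if k = j then (if G.Adj i j then 0 else 1) else 0)) := by
      intro k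
      by_cases hki : k = i
      · subst hki
        have : ¬ G.Adj k k := G.loopless.irrefl k
        have h2 : G.Adj j k ↔ G.Adj k j := G.adj_comm j k
        simp only [hT, Finset.mem_filter]
        by_cases h : G.Adj k j <;> simp [this, h2, h, hne]
      · by_cases hkj : k = j
        · subst hkj
          have : ¬ G.Adj k k := G.loopless.irrefl k
          simp only [hT, Finset.mem_filter]
          by_cases h : G.Adj i k <;> simp [this, h, hki]
        · simp [hT, hki, hkj]
    rw [Finset.sum_congr rfl fun k _ => h1 k, Finset.sum_add_distrib, Finset.sum_add_distrib]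
    simp only [Finset.sum_ite_eq', Finset.mem_univ, if_true]
    rw [Finset.sum_boole]
    have : (Finset.univ.filter fun k => k ∈ T) = T := by
      ext k
      simp
    rw [this]
    by_cases h : G.Adj i j <;> simp [h]
    norm_num
  have hTn : (0 : ℝ) ≤ T.card := by positivity
  have hUn : (0 : ℝ) ≤ U.card := by positivity
  unfold fac
  rw [hag]
  by_cases h : G.Adj i j
  · have h1 : (Finset.univ.filter (fun k : Fin n => k ≠ i ∧ k ≠ j ∧
                Even ((if G.Adj i j then 1 else 0) + (if G.Adj i k then 1 else 0)
                  + (if G.Adj j k then 1 else 0) : ℕ))) = U := by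
      ext k
      simp only [hU, Finset.mem_filter, Finset.mem_univ, true_and, h, if_true]
      have h5 : ¬ Even (1 + 1 + 1 : ℕ) := by decide
      have h6 : ¬ Even (1 + 0 + 0 : ℕ) := by decide
      by_cases h2 : G.Adj i k <;> by_cases h3 : G.Adj j k <;> simp [h2, h3, Nat.even_add_one]
    rw [h1]
    simp only [h, decide_true, if_true, add_zero]
    rw [div_le_iff₀ (by linarith)]
    have h4 : (1 - (T.card : ℝ) / n) * (n - 2) = n - 2 - T.card + 2 * (T.card / n) := by
      have : (n : ℝ) ≠ 0 := by linarith
      field_simp
      ring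
    rw [h4]
    have : (0 : ℝ) ≤ (T.card : ℝ) / n := by positivity
    linarith
  · have h1 : (Finset.univ.filter (fun k : Fin n => k ≠ i ∧ k ≠ j ∧
                Even ((if G.Adj i j then 1 else 0) + (if G.Adj i k then 1 else 0)
                  + (if G.Adj j k then 1 else 0) : ℕ))) = T := by
      ext k
      simp only [hT, Finset.mem_filter, Finset.mem_univ, true_and, h, if_false]
      by_cases h2 : G.Adj i k <;> by_cases h3 : G.Adj j k <;> simp [h2, h3]
    rw [h1]
    simp only [h, decide_false, if_false, Bool.false_eq_true]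
    rw [div_le_div_iff₀ (by linarith) (by linarith)]
    nlinarith

open Pool.Agent.W2lead.EvenTriples in
/-- For every ε>0 and all large n, summing over all graphs on n vertices the product over pairs i<j of the fraction of other vertices k with an even number of edges in triangle ijk gives at most 2^(εn²). -/
theorem result :
    ∀ ε : ℝ, 0 < ε → ∃ N : ℕ, ∀ n : ℕ, N ≤ n →
      (∑ G : SimpleGraph (Fin n),
        ∏ i : Fin n, ∏ j : Fin n,
          (if i < j then
            (((Finset.univ.filter (fun k : Fin n => k ≠ i ∧ k ≠ j ∧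
                Even ((if G.Adj i j then 1 else 0) + (if G.Adj i k then 1 else 0)
                  + (if G.Adj j k then 1 else 0) : ℕ))).card : ℝ) / ((n : ℝ) - 2))
          else 1)) ≤ (2 : ℝ) ^ (ε * (n : ℝ) ^ 2) := by
  intro ε hε
  obtain ⟨η, δ, m, N, hη, hδ, hm, hN3, hN⟩ := numbers hε
  refine ⟨N, fun n hn => ?_⟩
  have hn3 : 3 ≤ n := hN3.trans hn
  have hn' : (3 : ℝ) ≤ n := by exact_mod_cast hn3
  have hcP : Fintype.card (Pr n) ≤ n ^ 2 := by
    calc Fintype.card (Pr n) ≤ Fintype.card (Fin n × Fin n) := Fintype.card_subtype_le _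
      _ = n ^ 2 := by simp [sq]
  refine le_trans ?_ (hN n hn _ hcP)
  have hcode : Function.Injective (fun (G : SimpleGraph (Fin n)) (p : Pr n) =>
      decide (G.Adj p.1.1 p.1.2)) := by
    intro G H hGH
    ext a b
    have key : ∀ a b : Fin n, a < b → (G.Adj a b ↔ H.Adj a b) := by
      intro a b hab
      have := congrFun hGH ⟨(a, b), hab⟩
      simpa using this
    rcases lt_trichotomy a b with h | h | h
    · exact key a b h
    · subst h
      simp
    · rw [G.adj_comm, H.adj_comm]
      exact key b a h
  refine le_trans ?_ (total (by omega) hη hδ hm (fun (G : SimpleGraph (Fin n)) i k =>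
    decide (G.Adj i k)) (fun G p => decide (G.Adj p.1.1 p.1.2)) hcode)
  apply Finset.sum_le_sum
  intro G _
  have h1 : ∀ f : Fin n → Fin n → ℝ, (∏ i : Fin n, ∏ j : Fin n, (if i < j then f i j else 1)) =
      ∏ p : Pr n, f p.1.1 p.1.2 := by
    intro f
    rw [← Fintype.prod_prod_type' (f := fun i j => if i < j then f i j else 1)]
    rw [← Finset.prod_filter (fun p : Fin n × Fin n => p.1 < p.2) (fun p => f p.1 p.2)]
    rw [← Finset.prod_subtype_eq_prod_filter]
    apply Finset.prod_congr _ fun _ _ => rfl
    ext p
    simp
  rw [h1]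
  apply Finset.prod_le_prod
  · intro p _
    apply div_nonneg (by positivity)
    linarith
  · intro p _
    exact factor_le hn3 G p.2

end Pool.Agent.S11885
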