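import Pool.Statements.S13574
import Pool.Agent.Results.MP_916210_gt.BetaOmega

set_option autoImplicit false
open Pool Pool.MP_916210_gt

namespace Pool.Agent.S13574

open Topology Filter Set
open Pool.Agent.Results.MP_916210_gt.BetaOmega

/-- the continuous functions with the topology of pointwise convergence -/
abbrev tp (X : Type) [TopologicalSpace X] : TopologicalSpace C(X, ℝ) :=
  TopologicalSpace.induced (fun f : C(X, ℝ) => (f : X → ℝ)) inferInstance

/-- the obvious linear bijection -/
def E (X : Type) [TopologicalSpace X] : C(X, ℝ) ≃ₗ[ℝ] Cp X where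
  toFun f := ⟨f, f.continuous⟩
  invFun f := ⟨f.1, f.2⟩
  left_inv _ := rfl
  right_inv _ := rfl
  map_add' _ _ := rfl
  map_smul' _ _ := rfl

theorem continuous_E (X : Type) [TopologicalSpace X] :
    @Continuous _ _ (tp X) _ (E X) := by
  let _ : TopologicalSpace C(X, ℝ) := tp X
  have h : Continuous (fun f : C(X, ℝ) => (f : X → ℝ)) := continuous_induced_dom
  exact h.subtype_mk _

theorem continuous_E_symm (X : Type) [TopologicalSpace X] :
    @Continuous _ _ _ (tp X) (E X).symm := by
  let _ : TopologicalSpace C(X, ℝ) := tp X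
  exact continuous_induced_rng.2 continuous_subtype_val

/-- from linear homeomorphisms of the frozen form to those of the starting file -/
theorem lequiv_of (X Y : Type) [TopologicalSpace X] [TopologicalSpace Y]
    (e : C(X, ℝ) ≃ₗ[ℝ] C(Y, ℝ)) (h1 : @Continuous _ _ (tp X) (tp Y) e)
    (h2 : @Continuous _ _ (tp Y) (tp X) e.symm) : LEquivalent X Y := by
  let _ : TopologicalSpace C(X, ℝ) := tp X
  let _ : TopologicalSpace C(Y, ℝ) := tp Y
  refine ⟨⟨((E X).symm.trans e).trans (E Y), ?_, ?_⟩⟩
  · exact (continuous_E Y).comp (h1.comp (continuous_E_symm X))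
  · exact (continuous_E X).comp (h2.comp (continuous_E_symm Y))

/-- from linear homeomorphisms of the starting file to those of the frozen form -/
theorem of_lequiv (X Y : Type) [TopologicalSpace X] [TopologicalSpace Y]
    (h : LEquivalent X Y) : ∃ e : C(X, ℝ) ≃ₗ[ℝ] C(Y, ℝ),
      @Continuous _ _ (tp X) (tp Y) e ∧ @Continuous _ _ (tp Y) (tp X) e.symm := by
  obtain ⟨L⟩ := h
  let _ : TopologicalSpace C(X, ℝ) := tp X
  let _ : TopologicalSpace C(Y, ℝ) := tp Y
  refine ⟨((E X).trans L.toLinearEquiv).trans (E Y).symm, ?_, ?_⟩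
  · exact (continuous_E_symm Y).comp (L.continuous.comp (continuous_E X))
  · exact (continuous_E_symm X).comp (L.symm.continuous.comp (continuous_E Y))

/-- the map from the one-point compactification to `ℕ∞` -/
def G : OnePoint ℕ → ℕ∞ := fun x => OnePoint.elim x (⊤ : ℕ∞) (fun n : ℕ => (n : ℕ∞))

theorem continuous_G : Continuous G := by
  rw [OnePoint.continuous_iff_from_nat]
  exact ENat.tendsto_natCast_nhds_top

theorem bijective_G : Function.Bijective G := by
  constructor
  · intro x y h
    induction x using OnePoint.rec with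
    | infty =>
      induction y using OnePoint.rec with
      | infty => rfl
      | coe n => exact absurd h.symm (ENat.natCast_ne_top n)
    | coe m =>
      induction y using OnePoint.rec with
      | infty => exact absurd h (ENat.natCast_ne_top m)
      | coe n =>
        have h' : (m : ℕ∞) = (n : ℕ∞) := h
        rw [Nat.cast_inj.1 h']
  · intro y
    induction y using ENat.recTopCoe with
    | top => exact ⟨OnePoint.infty, rfl⟩
    | coe n => exact ⟨(n : OnePoint ℕ), rfl⟩

/-- the homeomorphism -/
noncomputable def H : OnePoint ℕ ≃ₜ ℕ∞ :=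
  Continuous.homeoOfEquivCompactToT2 (f := Equiv.ofBijective G bijective_G) continuous_G

/-- homeomorphic spaces are l-equivalent -/
theorem lequiv_of_homeo (X Y : Type) [TopologicalSpace X] [TopologicalSpace Y] (h : X ≃ₜ Y) :
    LEquivalent Y X := by
  have key : ∀ (A B : Type) [TopologicalSpace A] [TopologicalSpace B] (g : A → B)
      (hg : Continuous g), Continuous (fun f : Cp B => (⟨fun a => (f : B → ℝ) (g a),
        (show Continuous (f : B → ℝ) from f.2).comp hg⟩ : Cp A)) := by
    intro A B _ _ g hg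
    refine Continuous.subtype_mk (continuous_pi fun a => ?_) _
    exact (continuous_apply (g a)).comp continuous_subtype_val
  refine ⟨⟨⟨⟨⟨fun f => ⟨fun a => (f : Y → ℝ) (h a),
    (show Continuous (f : Y → ℝ) from f.2).comp h.continuous⟩, fun _ _ => rfl⟩,
    fun _ _ => rfl⟩, fun f => ⟨fun a => (f : X → ℝ) (h.symm a),
    (show Continuous (f : X → ℝ) from f.2).comp h.symm.continuous⟩, ?_, ?_⟩,
    key X Y h h.continuous, key Y X h.symm h.symm.continuous⟩⟩
  · intro f
    apply Subtype.ext
    funext a
    change (f : Y → ℝ) (h (h.symm a)) = _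
    rw [h.apply_symm_apply]
  · intro f
    apply Subtype.ext
    funext a
    change (f : X → ℝ) (h.symm (h a)) = _
    rw [h.symm_apply_apply]

/-- The negation of the preceding statement: For every infinite Tychonoff space X: if C_p(X) is linearly homeomorphic to C_p(X ⊕ A) for each subspace A with a continuous linear extender, then C_p(X × convergent sequence) is linearly homeomorphic to C_p(X). -/
theorem result :
    ¬ (∀ (X : Type) [TopologicalSpace X] [T35Space X] [Infinite X],
      (∀ A : Set X,
        (∃ φ : C(A, ℝ) →ₗ[ℝ] C(X, ℝ),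
          @Continuous _ _
            (TopologicalSpace.induced (fun f : C(A, ℝ) => (f : A → ℝ)) inferInstance)
            (TopologicalSpace.induced (fun f : C(X, ℝ) => (f : X → ℝ)) inferInstance)
            (⇑φ) ∧
          ∀ f : C(A, ℝ), ∀ a : A, φ f a = f a) →
        ∃ e : C(X, ℝ) ≃ₗ[ℝ] C(X ⊕ A, ℝ),
          @Continuous _ _
            (TopologicalSpace.induced (fun f : C(X, ℝ) => (f : X → ℝ)) inferInstance)
            (TopologicalSpace.induced (fun f : C(X ⊕ A, ℝ) => (f : X ⊕ A → ℝ)) inferInstance)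
            (⇑e) ∧
          @Continuous _ _
            (TopologicalSpace.induced (fun f : C(X ⊕ A, ℝ) => (f : X ⊕ A → ℝ)) inferInstance)
            (TopologicalSpace.induced (fun f : C(X, ℝ) => (f : X → ℝ)) inferInstance)
            (⇑e.symm)) →
      ∃ e : C(X × OnePoint ℕ, ℝ) ≃ₗ[ℝ] C(X, ℝ),
        @Continuous _ _
          (TopologicalSpace.induced (fun f : C(X × OnePoint ℕ, ℝ) => (f : X × OnePoint ℕ → ℝ)) inferInstance)
          (TopologicalSpace.induced (fun f : C(X, ℝ) => (f : X → ℝ)) inferInstance)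
          (⇑e) ∧
        @Continuous _ _
          (TopologicalSpace.induced (fun f : C(X, ℝ) => (f : X → ℝ)) inferInstance)
          (TopologicalSpace.induced (fun f : C(X × OnePoint ℕ, ℝ) => (f : X × OnePoint ℕ → ℝ)) inferInstance)
          (⇑e.symm)) := by
  intro h
  obtain ⟨hc, ht, hi, hls, hns⟩ :
      CompactSpace (Ultrafilter ℕ) ∧ T2Space (Ultrafilter ℕ) ∧ Infinite (Ultrafilter ℕ) ∧
        IsLStable (Ultrafilter ℕ) ∧ ¬ IsSStable (Ultrafilter ℕ) := by
    refine ⟨inferInstance, inferInstance, ?_, lstable, not_sstable⟩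
    exact Infinite.of_injective (pure : ℕ → Ultrafilter ℕ) (fun a b h => by
      have h1 : ({a} : Set ℕ) ∈ (pure b : Ultrafilter ℕ) := by
        rw [← h]
        exact Ultrafilter.mem_pure.2 rfl
      exact (Ultrafilter.mem_pure.1 h1).symm)
  obtain ⟨e, he1, he2⟩ := h (Ultrafilter ℕ) (fun A hA => by
    obtain ⟨φ, hφ, hφ2⟩ := hA
    refine of_lequiv _ _ (hls A ⟨⟨(E (Ultrafilter ℕ)).toLinearMap.comp
      (φ.comp (E A).symm.toLinearMap), ?_⟩, fun f a => hφ2 ((E A).symm f) a⟩)
    let _ : TopologicalSpace C(A, ℝ) := tp A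
    let _ : TopologicalSpace C(Ultrafilter ℕ, ℝ) := tp (Ultrafilter ℕ)
    exact (continuous_E (Ultrafilter ℕ)).comp (hφ.comp (continuous_E_symm A)))
  apply hns
  have h1 : LEquivalent (Ultrafilter ℕ × OnePoint ℕ) (Ultrafilter ℕ) := lequiv_of _ _ e he1 he2
  have h2 : LEquivalent (Ultrafilter ℕ × ℕ∞) (Ultrafilter ℕ × OnePoint ℕ) :=
    lequiv_of_homeo _ _ ((Homeomorph.refl (Ultrafilter ℕ)).prodCongr H)
  obtain ⟨L1⟩ := h1
  obtain ⟨L2⟩ := h2
  exact ⟨L2.trans L1⟩

end Pool.Agent.S13574
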