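import Pool.Statements.S13589
import Pool.Agent.W2helper83.MD.Fin

set_option autoImplicit false
open Pool Pool.MP_93ef73_gt

namespace Pool.Agent.S13589

open MeasureTheory Set

/-- the isometry between the complex plane and the Euclidean plane -/
noncomputable def e : ℂ ≃ₗᵢ[ℝ] EuclideanSpace ℝ (Fin 2) := Complex.orthonormalBasisOneI.repr

lemma mH (s : Set ℂ) : Measure.hausdorffMeasure 1 (e '' s) = Measure.hausdorffMeasure 1 s :=
  e.isometry.hausdorffMeasure_image (Or.inl zero_le_one) s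

lemma mH' (s : Set (EuclideanSpace ℝ (Fin 2))) :
    Measure.hausdorffMeasure 1 (e.symm '' s) = Measure.hausdorffMeasure 1 s :=
  e.symm.isometry.hausdorffMeasure_image (Or.inl zero_le_one) s

lemma sub_symm {s : Set ℂ} {t : Set (EuclideanSpace ℝ (Fin 2))} (h : e '' s ⊆ t) : s ⊆ e.symm '' t := by
  intro x hx
  exact ⟨e x, h ⟨x, hx, rfl⟩, by simp⟩

lemma seg_symm {s : Set ℂ} {x y : EuclideanSpace ℝ (Fin 2)} (h : segment ℝ x y ⊆ e '' s) :
    segment ℝ (e.symm x) (e.symm y) ⊆ s := by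
  have h1 : segment ℝ (e.symm x) (e.symm y) = e.symm '' segment ℝ x y := by
    have := image_segment ℝ (e.symm.toLinearEquiv.toLinearMap.toAffineMap) x y
    simpa using this.symm
  rw [h1]
  rintro _ ⟨z, hz, rfl⟩
  obtain ⟨w, hw, hw2⟩ := h hz
  rw [← hw2]
  simpa using hw

lemma oseg_symm {a : ℂ} {x y : EuclideanSpace ℝ (Fin 2)} (h : e a ∈ openSegment ℝ x y) :
    a ∈ openSegment ℝ (e.symm x) (e.symm y) := by
  have h1 : openSegment ℝ (e.symm x) (e.symm y) = e.symm '' openSegment ℝ x y := by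
    have := image_openSegment ℝ (e.symm.toLinearEquiv.toLinearMap.toAffineMap) x y
    simpa using this.symm
  rw [h1]
  exact ⟨e a, h, by simp⟩

lemma dist_symm (z : ℂ) (t : Set (EuclideanSpace ℝ (Fin 2))) :
    Metric.infDist z (e.symm '' t) = Metric.infDist (e z) t := by
  have := Metric.infDist_image e.symm.isometry (x := e z) (t := t)
  simpa using this

/-- There exist d, a nonempty compact totally disconnected A in R^d with two distinct Steiner trees S, T, no terminal interior to segments in both, and nonempty compact M (∣M∣=∣A∣ if A finite) and r>0 with S an r-minimizer for M. -/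
theorem result :
  ∃ (d : ℕ) (A S T M : Set (EuclideanSpace ℝ (Fin d))) (r : ℝ),
    IsCompact A ∧ A.Nonempty ∧ IsTotallyDisconnected A ∧
    (IsCompact S ∧ IsConnected S ∧ A ⊆ S ∧
      MeasureTheory.Measure.hausdorffMeasure 1 S < ⊤ ∧
      ∀ S' : Set (EuclideanSpace ℝ (Fin d)), IsCompact S' → IsConnected S' → A ⊆ S' →
        MeasureTheory.Measure.hausdorffMeasure 1 S ≤ MeasureTheory.Measure.hausdorffMeasure 1 S') ∧
    (IsCompact T ∧ IsConnected T ∧ A ⊆ T ∧
      MeasureTheory.Measure.hausdorffMeasure 1 T < ⊤ ∧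
      ∀ S' : Set (EuclideanSpace ℝ (Fin d)), IsCompact S' → IsConnected S' → A ⊆ S' →
        MeasureTheory.Measure.hausdorffMeasure 1 T ≤ MeasureTheory.Measure.hausdorffMeasure 1 S') ∧
    S ≠ T ∧
    IsCompact M ∧ M.Nonempty ∧ 0 < r ∧
    (A.Finite → M.Finite ∧ M.ncard = A.ncard) ∧
    (¬ ∃ a ∈ A,
        (∃ x y : EuclideanSpace ℝ (Fin d), x ≠ y ∧ segment ℝ x y ⊆ S ∧ a ∈ openSegment ℝ x y) ∧
        (∃ x y : EuclideanSpace ℝ (Fin d), x ≠ y ∧ segment ℝ x y ⊆ T ∧ a ∈ openSegment ℝ x y)) ∧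
    (∀ y ∈ M, Metric.infDist y S ≤ r) ∧
    ∀ W : Set (EuclideanSpace ℝ (Fin d)), IsCompact W → IsConnected W →
      (∀ y ∈ M, Metric.infDist y W ≤ r) →
        MeasureTheory.Measure.hausdorffMeasure 1 S ≤ MeasureTheory.Measure.hausdorffMeasure 1 W := by
  obtain ⟨A, S, T, M, r, hA, hAn, hAt, ⟨hS1, hS2, hS3, hS4, hS5⟩, ⟨hT1, hT2, hT3, hT4, hT5⟩, hST, hM, hMn,
    hr, hinf, hseg, hMS, hW⟩ := Pool.Agent.W2helper83.MD.main_complex
  refine ⟨2, e '' A, e '' S, e '' T, e '' M, r, hA.image e.continuous, hAn.image _, ?_,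
    ⟨hS1.image e.continuous, hS2.image _ e.continuous.continuousOn, image_mono hS3, ?_, ?_⟩,
    ⟨hT1.image e.continuous, hT2.image _ e.continuous.continuousOn, image_mono hT3, ?_, ?_⟩,
    ?_, hM.image e.continuous, hMn.image _, hr, ?_, ?_, ?_, ?_⟩
  · exact (e.isometry.isEmbedding.isTotallyDisconnected_image).2 hAt
  · rw [mH]; exact hS4
  · intro S' h1 h2 h3
    rw [mH, ← mH' S']
    exact hS5 _ (h1.image e.symm.continuous) (h2.image _ e.symm.continuous.continuousOn) (sub_symm h3)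
  · rw [mH]; exact hT4
  · intro S' h1 h2 h3
    rw [mH, ← mH' S']
    exact hT5 _ (h1.image e.symm.continuous) (h2.image _ e.symm.continuous.continuousOn) (sub_symm h3)
  · intro h
    exact hST ((image_injective.2 e.injective) h)
  · intro h
    exact absurd (h.of_finite_image e.injective.injOn) hinf
  · rintro ⟨_, ⟨a, ha, rfl⟩, ⟨x, y, hxy, h1, h2⟩, -⟩
    exact hseg ⟨a, ha, e.symm x, e.symm y, fun h => hxy (e.symm.injective h), seg_symm h1, oseg_symm h2⟩
  · rintro _ ⟨y, hy, rfl⟩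
    rw [Metric.infDist_image e.isometry]
    exact hMS y hy
  · intro W h1 h2 h3
    rw [mH, ← mH' W]
    refine hW _ (h1.image e.symm.continuous) (h2.image _ e.symm.continuous.continuousOn) fun y hy => ?_
    rw [dist_symm]
    exact h3 _ ⟨y, hy, rfl⟩

end Pool.Agent.S13589
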