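import Pool.Statements.S14498
import Pool.Agent.W2helper61.SemiThue

set_option autoImplicit false
open Filter Asymptotics
open Pool Pool.MP_2674cb_lc

namespace Pool.Agent.S14498

/-- The negation of the preceding statement: There is a finite nonempty terminating semi-Thue system with length-preserving rules whose longest-derivation function on words of length at most n is o(n log n) but not Θ(n). -/
theorem result :
    ¬ (∃ (k : ℕ) (S : Finset (List (Fin k) × List (Fin k))),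
    S.Nonempty ∧
    (∀ p ∈ S, p.1.length = p.2.length) ∧
    (¬ ∃ f : ℕ → List (Fin k), ∀ i : ℕ, ∃ x y : List (Fin k), ∃ p ∈ S,
        f i = x ++ p.1 ++ y ∧ f (i + 1) = x ++ p.2 ++ y) ∧
    (fun n : ℕ => ((sSup {m : ℕ | ∃ f : ℕ → List (Fin k), (f 0).length ≤ n ∧
        ∀ i < m, ∃ x y : List (Fin k), ∃ p ∈ S,
          f i = x ++ p.1 ++ y ∧ f (i + 1) = x ++ p.2 ++ y} : ℕ) : ℝ))
      =o[atTop] (fun n : ℕ => (n : ℝ) * Real.log (n : ℝ)) ∧
    ¬ ((fun n : ℕ => ((sSup {m : ℕ | ∃ f : ℕ → List (Fin k), (f 0).length ≤ n ∧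
        ∀ i < m, ∃ x y : List (Fin k), ∃ p ∈ S,
          f i = x ++ p.1 ++ y ∧ f (i + 1) = x ++ p.2 ++ y} : ℕ) : ℝ))
      =Θ[atTop] (fun n : ℕ => (n : ℝ)))) := by
  rintro ⟨k, S, hne, hlen, hterm, ho, hnot⟩
  exact hnot (Pool.Agent.W2helper61.SemiThue.gap S hne hlen hterm ho)

end Pool.Agent.S14498
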