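import Pool.Statements.S14739
import Pool.Agent.W2helper50.IsoTree
import Pool.Agent.W2helper50.Opp

set_option autoImplicit false
open Pool Pool.MP_599875_lc

namespace Pool.Agent.S14739

open Pool.Agent.W2helper50
open Pool.Agent.Helper743 (TR TR_iff)

/-- For every oracle X: if every computable structure on ℕ that is X-computably categorical is computably categorical, then any two computable structures with an X-computable isomorphism also have a computable isomorphism. -/
theorem result :
    ∀ X : ℕ → ℕ,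
      (∀ D : ℕ → List ℕ → Bool, Computable₂ D →
        (∀ E : ℕ → List ℕ → Bool, Computable₂ E →
          (∃ f : ℕ → ℕ, Function.Bijective f ∧ ∀ i xs, D i xs = E i (xs.map f)) →
          ∃ f : ℕ → ℕ, Function.Bijective f ∧ (∀ i xs, D i xs = E i (xs.map f)) ∧
            TuringReducible (PFun.lift f) (PFun.lift X)) →
        (∀ E : ℕ → List ℕ → Bool, Computable₂ E →
          (∃ f : ℕ → ℕ, Function.Bijective f ∧ ∀ i xs, D i xs = E i (xs.map f)) →
          ∃ f : ℕ → ℕ, Function.Bijective f ∧ (∀ i xs, D i xs = E i (xs.map f)) ∧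
            Computable f)) →
      (∀ D E : ℕ → List ℕ → Bool, Computable₂ D → Computable₂ E →
        (∃ f : ℕ → ℕ, Function.Bijective f ∧ (∀ i xs, D i xs = E i (xs.map f)) ∧
            TuringReducible (PFun.lift f) (PFun.lift X)) →
        ∃ f : ℕ → ℕ, Function.Bijective f ∧ (∀ i xs, D i xs = E i (xs.map f)) ∧
            Computable f) := by
  intro X hcat D0 E0 hD0 hE0 hX
  obtain ⟨f0, hf0, hf0i, hf0X⟩ := hX
  by_contra hno
  -- the tree of approximations to isomorphisms
  obtain ⟨c, hc⟩ := exists_codeS hD0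
  obtain ⟨c', hc'⟩ := exists_codeS hE0
  have hN : ∀ p : ℕ → ℕ, Computable p → ¬ ∀ k, 0 < k → Tok c c' (lst p k) = true := by
    intro p hp hall
    obtain ⟨h1, h2⟩ := iso_of_path hc hc' hall
    refine hno ⟨_, h1, h2, ?_⟩
    exact hp.comp (Primrec.nat_mul.comp (Primrec.const 2) Primrec.id).to_comp
  have hnp := kleene_no_path hN
  have hok : Primrec (okB (Tok c c')) := pr_okB (pr_Tok c c')
  -- a path computable from X
  obtain ⟨g0, hg1, hg2⟩ := Function.bijective_iff_has_inverse.1 hf0
  have hp0 : ∀ k, Tok c c' (lst (pof f0 g0) k) = true := path_of_iso hc hc' hg1 hg2 hf0i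
  have hpath : Path (okB (Tok c c')) (kp (pof f0 g0)) := kp_path hp0
  have hTR : TR (kp (pof f0 g0)) X :=
    (kp_TR _).trans ((pof_TR hg1 hg2).trans (TR_iff.2 hf0X))
  -- the structure is X-categorical
  have hcat' := hcat (strOf (mka (okB (Tok c c')))) (strOf_computable (prmk_a hok)) (by
    intro E hE hiso
    obtain ⟨h, hh⟩ := hiso
    obtain ⟨φ, hφ1, hφ2⟩ := copy_iso hok hE hh hpath
    exact ⟨φ, hφ1.1, hφ1.2, TR_iff.1 (hφ2.trans hTR)⟩)
  obtain ⟨φ, hφ1, hφ2, hφ3⟩ := hcat' (strOf (mkb (okB (Tok c c')))) (strOf_computable (prmk_b hok)) (by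
    obtain ⟨f, hf⟩ := mkab_iso (okB (Tok c c'))
    exact ⟨f, hf.1, hf.2⟩)
  exact no_comp_iso hok hnp ⟨hφ1, hφ2⟩ hφ3

end Pool.Agent.S14739
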