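import Pool.Statements.S19332
import Pool.Agent.W2helper27.RP.Last
-- import your own Pool.Agent.* helpers here

set_option autoImplicit false
open Pool Pool.MP_5501f7_pr

namespace Pool.Agent.S19332

/-- The negation of the preceding statement: For every finitely generated group with property RD and every finitely supported symmetric probability ν on it, with ρ the ℓ² norm of convolution by ν, the return probability ν^(2n)(e) is asymptotic to c·n^(-d)·ρ^(2n) for some c>0 and real d. -/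
theorem result :
    ¬ (∀ (G : Type) [Group G],
      (∃ S : Finset G, Subgroup.closure (S : Set G) = ⊤ ∧
        ∃ (C : ℝ) (s : ℕ), ∀ f g : G →₀ ℝ, ∀ T : Finset G,
          ∑ x ∈ T, (f.sum (fun y a => a * g (y⁻¹ * x))) ^ 2 ≤
            C * (f.sum (fun x a => a ^ 2 *
                  (1 + ((sInf {n : ℕ | ∃ l : List G, l.length = n ∧
                      (∀ y ∈ l, y ∈ S ∨ y⁻¹ ∈ S) ∧ l.prod = x} : ℕ) : ℝ)) ^ (2 * s)))
              * g.sum (fun _ a => a ^ 2)) →
      ∀ ν : G →₀ ℝ,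
        (∀ x, 0 ≤ ν x) →
        ν.sum (fun _ a => a) = 1 →
        (∀ x, ν x⁻¹ = ν x) →
        ∀ ρ : ℝ, 0 ≤ ρ →
          (∀ g : G →₀ ℝ, ∀ T : Finset G,
            ∑ x ∈ T, (ν.sum (fun y a => a * g (y⁻¹ * x))) ^ 2 ≤
              ρ ^ 2 * g.sum (fun _ a => a ^ 2)) →
          (∀ r : ℝ, 0 ≤ r → r < ρ → ∃ g : G →₀ ℝ, ∃ T : Finset G,
            r ^ 2 * g.sum (fun _ a => a ^ 2) <
              ∑ x ∈ T, (ν.sum (fun y a => a * g (y⁻¹ * x))) ^ 2) →
          ∃ c d : ℝ, 0 < c ∧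
            Asymptotics.IsEquivalent Filter.atTop
              (fun n : ℕ =>
                ((fun (h : G → ℝ) (x : G) => ν.sum (fun y a => a * h (y⁻¹ * x)))^[2 * n]
                  (Set.indicator ({1} : Set G) (fun _ => (1 : ℝ)))) 1)
              (fun n : ℕ => c * (n : ℝ) ^ (-d) * ρ ^ (2 * n))) := by
  intro hmain
  obtain ⟨C, s, hRD⟩ := Pool.Agent.W2helper27.RP.rd6
  have hα := Pool.Agent.W2helper27.RP.al_pos
  have hβ := Pool.Agent.W2helper27.RP.be_pos
  have htot : (Pool.Agent.W2helper27.RP.nu Pool.Agent.W2helper27.RP.al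
      Pool.Agent.W2helper27.RP.be).sum (fun _ a => a) = 1 := by
    rw [Pool.Agent.W2helper27.RP.nu_total, Pool.Agent.W2helper27.RP.al_add_be]
  obtain ⟨ρ, h0, h1, h2⟩ := Pool.Agent.W2helper27.RP.exists_rho _
    (Pool.Agent.W2helper27.RP.nu_nonneg hα.le hβ.le) htot
  obtain ⟨c, d, hc, hcd⟩ := hmain Pool.Agent.W2helper27.RP.G6
    ⟨Pool.Agent.W2helper27.RP.S6, Pool.Agent.W2helper27.RP.closure_S6, C, s, hRD⟩
    (Pool.Agent.W2helper27.RP.nu Pool.Agent.W2helper27.RP.al Pool.Agent.W2helper27.RP.be)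
    (Pool.Agent.W2helper27.RP.nu_nonneg hα.le hβ.le) htot
    Pool.Agent.W2helper27.RP.nu_symmP ρ h0 h1 h2
  exact Pool.Agent.W2helper27.RP.not_equiv' ρ c d hc hcd

end Pool.Agent.S19332
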